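import Pool.Agent.Lib.MP_de5eaa_nt.Near.Q14

/-!
# The Wilson quotients of one order are equidistributed, independently of any given data, for all but few orders

`wilsonQuotient n p` is `((-1)^n (n-1)! (p-n)! - 1) / p`; for a prime `p` and `1 ≤ n ≤ p` it is an
integer, and it is divisible by `p` exactly if `p` is a Wilson prime of order `n`.
-/

set_option autoImplicit false

namespace Pool.Agent.Results.MP_de5eaa_nt.AlmostAllOrders

open Nat

/-- The Wilson quotient of order `n` of the prime `p` (an exact quotient for `1 ≤ n ≤ p`; for `n > p` here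
`(p - n)!` is `0! = 1`). -/
def wilsonQuotient (n p : ℕ) : ℤ := ((-1) ^ n * ((n - 1)! : ℤ) * ((p - n)! : ℤ) - 1) / (p : ℤ)

/-- The number of the primes `p ≤ x` in the set `S`. -/
noncomputable def primesIn (S : Set ℕ) (x : ℕ) : ℕ := Nat.card {p : ℕ // p.Prime ∧ p ≤ x ∧ p ∈ S}

/-- The number of the primes `p ≤ x` in the set `S` such that `wilsonQuotient n p / p` is, modulo one, in
the arc `[θ, θ + ℓ]`. -/
noncomputable def inArc (S : Set ℕ) (n x : ℕ) (θ ℓ : ℝ) : ℕ :=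
  Nat.card {p : ℕ // (p.Prime ∧ p ≤ x ∧ p ∈ S) ∧
    ∃ a : ℤ, θ ≤ (wilsonQuotient n p : ℝ) / p - a ∧ (wilsonQuotient n p : ℝ) / p - a ≤ θ + ℓ}

/-- The set `U` of the elements `p` of `S` with `Y_i(p) ≤ t_i` for all `i`. -/
def cut (S : Set ℕ) {r : ℕ} (Y : Fin r → ℕ → ℝ) (t : Fin r → ℝ) : Set ℕ := {p | p ∈ S ∧ ∀ i, Y i p ≤ t i}

/-- For some `t` and some arc of some length `ℓ`: the arc does not contain `ℓ |U(x)|` of the points
`wilsonQuotient n p / p`, `p ∈ U(x)`, up to `|S(x)| / N`; here `U` is the set of the `p ∈ S` with `Y_i(p) ≤ t_i` for all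
`i`, and `S(x)` is the set of the primes `p ≤ x` in `S`. -/
def Off (S : Set ℕ) {r : ℕ} (Y : Fin r → ℕ → ℝ) (N n x : ℕ) : Prop :=
  ∃ (t : Fin r → ℝ) (θ ℓ : ℝ), 0 ≤ ℓ ∧ ℓ ≤ 1 ∧
    (primesIn S x : ℝ) / N < |(inArc (cut S Y t) n x θ ℓ : ℝ) - ℓ * primesIn (cut S Y t) x|

/-- The quotient is exact, and it is divisible by `p` exactly if `p` is a Wilson prime of order `n`. -/
theorem wilsonQuotient_spec {n p : ℕ} (hp : p.Prime) (hn : 1 ≤ n) (hnp : n ≤ p) :
    (p : ℤ) * wilsonQuotient n p = (-1) ^ n * ((n - 1)! : ℤ) * ((p - n)! : ℤ) - 1 ∧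
    ((p : ℤ) ∣ wilsonQuotient n p ↔ (p : ℤ) ^ 2 ∣ ((n - 1)! : ℤ) * ((p - n)! : ℤ) - (-1) ^ n) := by
  have h1 : (p : ℤ) * wilsonQuotient n p = (-1) ^ n * ((n - 1)! : ℤ) * ((p - n)! : ℤ) - 1 :=
    Pool.Agent.Lib.MP_de5eaa_nt.Near.wq_spec hp hn hnp
  refine ⟨h1, ?_⟩
  have h2 : ((-1 : ℤ) ^ n) * (-1) ^ n = 1 := by
    rw [← mul_pow]
    norm_num
  have h3 : ((n - 1)! : ℤ) * ((p - n)! : ℤ) - (-1) ^ n = (-1) ^ n * ((p : ℤ) * wilsonQuotient n p) := by
    rw [h1]
    linear_combination (-(((n - 1)! : ℤ) * ((p - n)! : ℤ))) * h2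
  have h4 : (p : ℤ) ≠ 0 := by
    have := hp.pos
    omega
  rw [h3]
  constructor
  · rintro ⟨c, hc⟩
    exact ⟨(-1) ^ n * c, by rw [hc]; ring⟩
  · intro h5
    have h6 : (p : ℤ) ^ 2 ∣ (p : ℤ) * wilsonQuotient n p := by
      have h7 := Dvd.dvd.mul_left h5 ((-1) ^ n)
      have h8 : (-1 : ℤ) ^ n * ((-1) ^ n * ((p : ℤ) * wilsonQuotient n p)) = (p : ℤ) * wilsonQuotient n p := by
        rw [← mul_assoc, h2, one_mul]
      rwa [h8] at h7
    rw [sq] at h6
    exact (mul_dvd_mul_iff_left h4).1 h6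

open Pool.Agent.Lib.MP_de5eaa_nt.Near Classical in
theorem primesIn_eq (S : Set ℕ) (x : ℕ) : primesIn S x = ((pr x).filter fun p => p ∈ S).card := by
  unfold primesIn pr
  refine Nat.subtype_card _ fun p => ?_
  rw [Finset.mem_filter, Finset.mem_filter, Finset.mem_range, Nat.lt_succ_iff]
  tauto

open Pool.Agent.Lib.MP_de5eaa_nt.Near in
theorem primesIn_univ (x : ℕ) : primesIn Set.univ x = ppi x := by
  unfold primesIn ppi
  refine Nat.subtype_card _ fun p => ?_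
  rw [Finset.mem_filter, Finset.mem_range, Nat.lt_succ_iff]
  simp only [Set.mem_univ, and_true]
  tauto

open Pool.Agent.Lib.MP_de5eaa_nt.Near Classical in
theorem inArc_eq (S : Set ℕ) (n x : ℕ) (θ ℓ : ℝ) : inArc S n x θ ℓ =
    (((pr x).filter fun p => p ∈ S).filter fun p => ∃ a : ℤ, θ ≤ yy p n - a ∧ yy p n - a ≤ θ + ℓ).card := by
  unfold inArc
  refine Nat.subtype_card _ fun p => ?_
  unfold pr
  rw [Finset.mem_filter, Finset.mem_filter, Finset.mem_filter, Finset.mem_range, Nat.lt_succ_iff,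
    and_comm (a := p ≤ x), and_assoc (a := p.Prime)]
  exact Iff.rfl

/-- **Theorem.** For every `r` there is a `C` such that for all `x`, `M`, `L`, `N ≥ 1`, for EVERY set `S` and ANY real
functions `Y_1, ..., Y_r`: all but at most
`C N^(r+2) (1 + log N)^3 (1 + L log (2 + (M + L) / log x) / log x) π(x) / |S(x)|` of the orders `n` with `M < n ≤ M + L`
are such that for all real `t_1, ..., t_r` every arc of every length `ℓ` contains `ℓ |U(x)|` of the points
`wilsonQuotient n p / p`, `p ∈ U(x)`, with an error of at most `|S(x)| / N`; here `U` is the set of the `p ∈ S` with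
`Y_i(p) ≤ t_i` for all `i`, and `S(x)` is the set of the primes `p ≤ x` in `S`. -/
theorem result (r : ℕ) : ∃ C : ℝ, 0 < C ∧ ∀ N M L x : ℕ, 1 ≤ N → ∀ (S : Set ℕ) (Y : Fin r → ℕ → ℝ),
    (Nat.card {n : ℕ // (M < n ∧ n ≤ M + L) ∧ Off S Y N n x} : ℝ) ≤
      C * (N : ℝ) ^ (r + 2) * (1 + Real.log N) ^ 3 *
        (1 + L * (Real.log (2 + ((M : ℝ) + L) / Real.log x) / Real.log x)) *
          ((primesIn Set.univ x : ℝ) / primesIn S x) := by
  classical
  obtain ⟨C, hC, h⟩ := Pool.Agent.Lib.MP_de5eaa_nt.Near.orders_data r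
  refine ⟨C, hC, fun N M L x hN S Y => ?_⟩
  have h2 := h x N hN ((Pool.Agent.Lib.MP_de5eaa_nt.Near.pr x).filter fun p => p ∈ S)
    (Finset.filter_subset _ _) Y M L
  have hcut : ∀ t : Fin r → ℝ, ((Pool.Agent.Lib.MP_de5eaa_nt.Near.pr x).filter fun p => p ∈ cut S Y t) =
      ((Pool.Agent.Lib.MP_de5eaa_nt.Near.pr x).filter fun p => p ∈ S).filter fun p => ∀ i, Y i p ≤ t i := by
    intro t
    ext p
    simp only [Finset.mem_filter]
    unfold cut
    rw [Set.mem_setOf_eq, and_assoc]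
  rw [primesIn_univ, primesIn_eq S]
  refine le_trans (le_of_eq ?_) h2
  congr 1
  refine Nat.subtype_card _ fun n => ?_
  rw [Finset.mem_filter, Finset.mem_Ioc]
  unfold Off
  simp only [primesIn_eq, inArc_eq, hcut]

end Pool.Agent.Results.MP_de5eaa_nt.AlmostAllOrders
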