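import Mathlib

set_option autoImplicit false

/-!
# Wilson primes of order `n`, on average over `n`
-/

namespace Pool.Agent.Results.MP_de5eaa_nt.AverageOrder

open Finset Nat

/-- `p` is a Wilson prime of order `n` (`1 ≤ n ≤ p`):
`(n-1)! (p-n)! ≡ (-1)^n mod p^2`. Order `1` is the case of the Wilson primes. -/
def IsWilson (n p : ℕ) : Prop :=
  p.Prime ∧ 1 ≤ n ∧ n ≤ p ∧ ((p : ℤ) ^ 2 ∣ ((n - 1)! : ℤ) * ((p - n)! : ℤ) - (-1) ^ n)

instance (n p : ℕ) : Decidable (IsWilson n p) := by
  unfold IsWilson; infer_instance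

/-- The elementary symmetric function of degree `h-1` of `n, n+1, ..., n+h-1`. -/
def esym (n : ℕ) : ℕ → ℕ
  | 0 => 0
  | h + 1 => esym n h * (n + h) + ∏ i ∈ range h, (n + i)

lemma esym_pos (n h : ℕ) (hn : 1 ≤ n) : 0 < esym n (h + 1) := by
  have : 0 < ∏ i ∈ range h, (n + i) := Finset.prod_pos (fun i _ => by omega)
  simp only [esym]; omega

lemma prod_le (n h M : ℕ) (hM : n + h ≤ M + 1) : ∏ i ∈ range h, (n + i) ≤ M ^ h := by
  calc ∏ i ∈ range h, (n + i) ≤ ∏ _i ∈ range h, M :=
        Finset.prod_le_prod' (fun i hi => by rw [mem_range] at hi; omega)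
    _ = M ^ h := by simp

lemma esym_le (n h M : ℕ) (hM : n + h ≤ M + 1) : esym n h * M ≤ h * M ^ h := by
  induction h with
  | zero => simp [esym]
  | succ h ih =>
    have h1 := ih (by omega)
    have h2 := prod_le n h M (by omega)
    have h3 : n + h ≤ M := by omega
    simp only [esym]
    calc (esym n h * (n + h) + ∏ i ∈ range h, (n + i)) * M
        = esym n h * M * (n + h) + (∏ i ∈ range h, (n + i)) * M := by ring
      _ ≤ (h * M ^ h) * M + M ^ h * M := by gcongr
      _ = (h + 1) * M ^ (h + 1) := by ring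

/-- `∏ (p - n - i)` over `i < h`, modulo `p^2`. -/
lemma prod_sub (p n h : ℕ) :
    ((p : ℤ) ^ 2) ∣ (∏ i ∈ range h, ((p : ℤ) - (n + i))) -
      (-1) ^ h * ((∏ i ∈ range h, ((n : ℤ) + i)) - p * esym n h) := by
  induction h with
  | zero => simp [esym]
  | succ h ih =>
    obtain ⟨c, hc⟩ := ih
    rw [sub_eq_iff_eq_add] at hc
    rw [Finset.prod_range_succ, hc]
    refine ⟨c * ((p : ℤ) - (n + h)) - (-1) ^ h * esym n h, ?_⟩
    simp only [esym]
    push_cast
    rw [Finset.prod_range_succ]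
    ring

lemma factorial_split (p n h : ℕ) (hp : n + h ≤ p) :
    ((p - n)! : ℤ) = ((p - (n + h))! : ℤ) * ∏ i ∈ range h, ((p : ℤ) - (n + i)) := by
  induction h with
  | zero => simp
  | succ h ih =>
    rw [ih (by omega), Finset.prod_range_succ]
    have h1 : p - (n + h) = (p - (n + (h + 1))) + 1 := by omega
    rw [h1, Nat.factorial_succ]
    have h2 : ((p - (n + (h + 1)) + 1 : ℕ) : ℤ) = (p : ℤ) - (n + h) := by
      push_cast [Nat.cast_sub (show n + (h + 1) ≤ p by omega)]
      ring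
    push_cast at h2 ⊢
    rw [← h2]
    ring

lemma factorial_split' (n h : ℕ) (hn : 1 ≤ n) :
    ((n + h - 1)! : ℤ) = ((n - 1)! : ℤ) * ∏ i ∈ range h, ((n : ℤ) + i) := by
  induction h with
  | zero => simp
  | succ h ih =>
    rw [Finset.prod_range_succ, ← mul_assoc, ← ih]
    have h1 : n + (h + 1) - 1 = (n + h - 1) + 1 := by omega
    rw [h1, Nat.factorial_succ]
    have h2 : ((n + h - 1 + 1 : ℕ) : ℤ) = (n : ℤ) + h := by
      have : n + h - 1 + 1 = n + h := by omega
      rw [this]; push_cast; ring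
    push_cast at h2 ⊢
    rw [← h2]
    ring

/-- A prime which is Wilson of two orders divides a small integer. -/
lemma dvd_esym (p n h : ℕ) (h1 : IsWilson n p) (h2 : IsWilson (n + h) p) :
    p ∣ esym n h := by
  obtain ⟨hp, hn, -, hd1⟩ := h1
  obtain ⟨-, -, hnp, hd2⟩ := h2
  have hpp := Nat.prime_iff_prime_int.mp hp
  have e1 := factorial_split p n h hnp
  have e2 := factorial_split' n h hn
  set C : ℤ := ((n - 1)! : ℤ) * ((p - (n + h))! : ℤ) with hC
  set A : ℤ := ∏ i ∈ range h, ((n : ℤ) + i) with hA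
  set B : ℤ := ∏ i ∈ range h, ((p : ℤ) - (n + i)) with hB
  have e3 : ((n - 1)! : ℤ) * ((p - n)! : ℤ) = C * B := by rw [e1, hC]; ring
  have e4 : ((n + h - 1)! : ℤ) * ((p - (n + h))! : ℤ) = C * A := by rw [e2, hC]; ring
  rw [e3] at hd1
  rw [e4] at hd2
  have key := prod_sub p n h
  rw [← hA, ← hB] at key
  -- C * p * esym ≡ 0
  have hcomb : (p : ℤ) ^ 2 ∣ C * (p * (esym n h : ℤ)) := by
    have t1 : (p : ℤ) ^ 2 ∣ (-1) ^ h * (C * B - (-1) ^ n) := Dvd.dvd.mul_left hd1 _
    have t2 : (p : ℤ) ^ 2 ∣ (-1) ^ h * C * (B - (-1) ^ h * (A - p * esym n h)) :=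
      Dvd.dvd.mul_left key _
    have hs : ((-1 : ℤ) ^ h) * (-1) ^ h = 1 := by
      rw [← mul_pow]; simp
    have t3 : C * (p * (esym n h : ℤ)) =
        (C * A - (-1) ^ (n + h)) - (-1) ^ h * (C * B - (-1) ^ n)
          + (-1) ^ h * C * (B - (-1) ^ h * (A - p * esym n h)) := by
      rw [pow_add]
      linear_combination (C * (A - p * esym n h)) * hs
    rw [t3]
    exact dvd_add (dvd_sub hd2 t1) t2
  have hcop : ¬ (p : ℤ) ∣ C := by
    intro hdiv
    rw [hC] at hdiv
    rcases hpp.dvd_or_dvd hdiv with h | h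
    · have := (hp.dvd_factorial).mp (Int.natCast_dvd_natCast.mp h)
      omega
    · have := (hp.dvd_factorial).mp (Int.natCast_dvd_natCast.mp h)
      omega
  have h5 : (p : ℤ) * p ∣ p * (C * (esym n h : ℤ)) := by
    have : p * (C * (esym n h : ℤ)) = C * (p * (esym n h : ℤ)) := by ring
    rw [this, ← sq]; exact hcomb
  have h6 := Int.dvd_of_mul_dvd_mul_left (Int.natCast_ne_zero.mpr hp.ne_zero) h5
  rcases hpp.dvd_or_dvd h6 with h | h
  · exact absurd h hcop
  · exact Int.natCast_dvd_natCast.mp h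

/-- At most `h - 1` primes `p ≥ n + h` divide `esym n h`. -/
lemma card_primes_dvd (n h : ℕ) (hn : 1 ≤ n) (hh : 1 ≤ h) (Q : Finset ℕ)
    (hQ : ∀ p ∈ Q, p.Prime ∧ n + h ≤ p ∧ p ∣ esym n h) : #Q ≤ h - 1 := by
  by_contra hcon
  have hcard : h ≤ #Q := by omega
  obtain ⟨k, rfl⟩ : ∃ k, h = k + 1 := ⟨h - 1, by omega⟩
  obtain ⟨M, hM⟩ : ∃ M, n + (k + 1) = M + 1 := ⟨n + k, by omega⟩
  have hpos := esym_pos n k hn
  have h1 : ∏ p ∈ Q, p ∣ esym n (k + 1) :=
    Finset.prod_primes_dvd _ (fun p hp => (hQ p hp).1.prime) (fun p hp => (hQ p hp).2.2)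
  have h2 := Nat.le_of_dvd hpos h1
  have h3 : (M + 1) ^ #Q ≤ ∏ p ∈ Q, p := by
    rw [← Finset.prod_const]
    exact Finset.prod_le_prod' (fun p hp => by rw [← hM]; exact (hQ p hp).2.1)
  have h4 : (M + 1) ^ (k + 1) ≤ (M + 1) ^ #Q := Nat.pow_le_pow_right (by omega) hcard
  have h5 := esym_le n (k + 1) M (by omega)
  have hMpos : 0 < M := by omega
  have h6 : esym n (k + 1) ≤ M ^ (k + 1) := by
    have : esym n (k + 1) * M ≤ M ^ (k + 1) * M := by
      calc esym n (k + 1) * M ≤ (k + 1) * M ^ (k + 1) := h5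
        _ ≤ M * M ^ (k + 1) := by gcongr; omega
        _ = M ^ (k + 1) * M := by ring
    exact Nat.le_of_mul_le_mul_right this hMpos
  have h7 : M ^ (k + 1) < (M + 1) ^ (k + 1) := Nat.pow_lt_pow_left (by omega) (by omega)
  omega

lemma sum_aux (j : ℕ) : ∑ i ∈ range j, (j - i - 1) = j.choose 2 := by
  have h1 : ∑ i ∈ range j, (j - i - 1) = ∑ i ∈ range j, i := by
    rw [← Finset.sum_range_reflect (fun i => i) j]
    exact Finset.sum_congr rfl (fun i _ => by omega)
  rw [h1, Finset.sum_range_id, Nat.choose_two_right]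

lemma sum_aux2 (L : ℕ) :
    ∑ j ∈ range L, ∑ i ∈ range j, (j - i - 1) = L.choose 3 := by
  induction L with
  | zero => simp
  | succ L ih =>
    rw [Finset.sum_range_succ, ih, sum_aux, Nat.choose_succ_succ' L 2, add_comm]

/-- A finite set with `s` elements has at least `s - 1` pairs. -/
lemma card_le_pairs (S : Finset ℕ) :
    #S ≤ 1 + #{x ∈ S ×ˢ S | x.1 < x.2} := by
  rcases S.eq_empty_or_nonempty with h | h
  · simp [h]
  · have hm := S.min'_mem h
    have h1 : #(S.erase (S.min' h)) ≤ #{x ∈ S ×ˢ S | x.1 < x.2} := by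
      apply Finset.card_le_card_of_injOn (fun m => (S.min' h, m))
      · intro m hmS
        simp only [Finset.coe_erase, Set.mem_sdiff, Finset.mem_coe, Set.mem_singleton_iff] at hmS
        simp only [Finset.coe_filter, Set.mem_ofPred_eq, Finset.mem_product]
        exact ⟨⟨hm, hmS.1⟩, lt_of_le_of_ne (S.min'_le m hmS.1) (Ne.symm hmS.2)⟩
      · intro a _ b _ hab
        simpa using hab
    rw [Finset.card_erase_of_mem hm] at h1
    omega

/-- Pairs of orders in a window of length `L`: the total number of primes which are Wilson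
primes of both orders is at most `choose L 3`. -/
lemma pairs_bound (a L : ℕ) (P : Finset ℕ) :
    ∑ j ∈ range L, ∑ i ∈ range j,
      #{p ∈ P | IsWilson (a + i) p ∧ IsWilson (a + j) p} ≤ L.choose 3 := by
  rw [← sum_aux2]
  refine Finset.sum_le_sum (fun j _ => Finset.sum_le_sum (fun i hi => ?_))
  rw [mem_range] at hi
  by_cases hne : (({p ∈ P | IsWilson (a + i) p ∧ IsWilson (a + j) p} : Finset ℕ)).Nonempty
  · obtain ⟨q, hq⟩ := hne
    have hq' := (Finset.mem_filter.mp hq).2.1.2.1
    have key := card_primes_dvd (a + i) (j - i) hq' (by omega)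
      {p ∈ P | IsWilson (a + i) p ∧ IsWilson (a + j) p} (by
        intro p hp
        obtain ⟨-, h1, h2⟩ := Finset.mem_filter.mp hp
        have e : a + j = a + i + (j - i) := by omega
        refine ⟨h1.1, ?_, ?_⟩
        · rw [← e]; exact h2.2.2.1
        · rw [e] at h2
          exact dvd_esym p (a + i) (j - i) h1 h2)
    exact key
  · rw [Finset.not_nonempty_iff_eq_empty] at hne
    rw [hne]; simp

/-- **Wilson primes of order `n`, on average over a window of orders.** For any finite set `P`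
(of primes, say) and any window `a, a+1, ..., a+L-1` of orders, the numbers of Wilson primes of order `n`
in `P` add up, over the window, to at most `#P + choose L 3`. -/
theorem result (a L : ℕ) (P : Finset ℕ) :
    ∑ n ∈ Finset.Ico a (a + L), #{p ∈ P | IsWilson n p} ≤ #P + L.choose 3 := by
  have h1 : ∑ n ∈ Finset.Ico a (a + L), #{p ∈ P | IsWilson n p}
      = ∑ p ∈ P, #{n ∈ Finset.Ico a (a + L) | IsWilson n p} := by
    simp only [Finset.card_filter]
    exact Finset.sum_comm
  rw [h1]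
  have h2 : ∀ p ∈ P, #{n ∈ Finset.Ico a (a + L) | IsWilson n p} ≤
      1 + ∑ j ∈ range L, ∑ i ∈ range j,
        (if IsWilson (a + i) p ∧ IsWilson (a + j) p then 1 else 0) := by
    intro p _
    have h3 := card_le_pairs {i ∈ range L | IsWilson (a + i) p}
    have h4 : #{n ∈ Finset.Ico a (a + L) | IsWilson n p}
        = #{i ∈ range L | IsWilson (a + i) p} := by
      rw [Finset.card_filter, Finset.card_filter, Finset.sum_Ico_eq_sum_range]
      simp
    rw [h4]
    refine h3.trans (Nat.add_le_add_left ?_ 1)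
    have h5 : #{x ∈ ({i ∈ range L | IsWilson (a + i) p} : Finset ℕ) ×ˢ
          ({i ∈ range L | IsWilson (a + i) p} : Finset ℕ) | x.1 < x.2} ≤
        #((range L).sigma (fun j => {i ∈ range j | IsWilson (a + i) p ∧ IsWilson (a + j) p})) := by
      apply Finset.card_le_card_of_injOn (fun x => (⟨x.2, x.1⟩ : Σ _ : ℕ, ℕ))
      · intro x hx
        simp only [Finset.coe_filter, Finset.mem_product, Finset.mem_filter, Finset.mem_range,
          Set.mem_ofPred_eq] at hx
        simp only [Finset.mem_coe, Finset.mem_sigma, Finset.mem_filter, Finset.mem_range]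
        exact ⟨hx.1.2.1, hx.2, hx.1.1.2, hx.1.2.2⟩
      · rintro ⟨x1, x2⟩ _ ⟨y1, y2⟩ _ hxy
        simp only [Sigma.mk.injEq, heq_eq_eq] at hxy
        simp [hxy.1, hxy.2]
    refine h5.trans (le_of_eq ?_)
    rw [Finset.card_sigma]
    simp only [Finset.card_filter]
  calc ∑ p ∈ P, #{n ∈ Finset.Ico a (a + L) | IsWilson n p}
      ≤ ∑ p ∈ P, (1 + ∑ j ∈ range L, ∑ i ∈ range j,
        (if IsWilson (a + i) p ∧ IsWilson (a + j) p then 1 else 0)) := Finset.sum_le_sum h2
    _ = #P + ∑ j ∈ range L, ∑ i ∈ range j,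
        #{p ∈ P | IsWilson (a + i) p ∧ IsWilson (a + j) p} := by
        rw [Finset.sum_add_distrib, Finset.sum_const, smul_eq_mul, mul_one]
        congr 1
        rw [Finset.sum_comm]
        refine Finset.sum_congr rfl (fun j _ => ?_)
        rw [Finset.sum_comm]
        refine Finset.sum_congr rfl (fun i _ => ?_)
        rw [Finset.card_filter]
    _ ≤ #P + L.choose 3 := Nat.add_le_add_left (pairs_bound a L P) _

end Pool.Agent.Results.MP_de5eaa_nt.AverageOrder
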