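import Pool.Agent.Lib.MP_de5eaa_nt.Near.Q14

/-!
# The Wilson quotients of the orders in a set are equidistributed for almost all primes

`wilsonQuotient n p` is `((-1)^n (n-1)! (p-n)! - 1) / p`; for a prime `p` and `1 ≤ n ≤ p` it is an
integer, and it is divisible by `p` exactly if `p` is a Wilson prime of order `n`.
-/

set_option autoImplicit false

namespace Pool.Agent.Results.MP_de5eaa_nt.Equidistribution

open Nat

/-- The Wilson quotient of order `n` of the prime `p` (an exact quotient for `1 ≤ n ≤ p`; for `n > p` here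
`(p - n)!` is `0! = 1`). -/
def wilsonQuotient (n p : ℕ) : ℤ := ((-1) ^ n * ((n - 1)! : ℤ) * ((p - n)! : ℤ) - 1) / (p : ℤ)

/-- The number of the `n` in `A` such that `wilsonQuotient n p / p` is, modulo one, in the arc `[θ, θ + ℓ]`. -/
noncomputable def inArc (A : Set ℕ) (p : ℕ) (θ ℓ : ℝ) : ℕ :=
  Nat.card {n : ℕ // n ∈ A ∧
    ∃ a : ℤ, θ ≤ (wilsonQuotient n p : ℝ) / p - a ∧ (wilsonQuotient n p : ℝ) / p - a ≤ θ + ℓ}

/-- The set of the elements `n` of `A` with `Y_i(n) ≤ t_i` for all `i`. -/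
def cut (A : Set ℕ) {r : ℕ} (Y : Fin r → ℕ → ℝ) (t : Fin r → ℝ) : Set ℕ := {n | n ∈ A ∧ ∀ i, Y i n ≤ t i}

/-- The quotient is exact, and it is divisible by `p` exactly if `p` is a Wilson prime of order `n`. -/
theorem wilsonQuotient_spec {n p : ℕ} (hp : p.Prime) (hn : 1 ≤ n) (hnp : n ≤ p) :
    (p : ℤ) * wilsonQuotient n p = (-1) ^ n * ((n - 1)! : ℤ) * ((p - n)! : ℤ) - 1 ∧
    ((p : ℤ) ∣ wilsonQuotient n p ↔ (p : ℤ) ^ 2 ∣ ((n - 1)! : ℤ) * ((p - n)! : ℤ) - (-1) ^ n) := by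
  have h1 : (p : ℤ) * wilsonQuotient n p = (-1) ^ n * ((n - 1)! : ℤ) * ((p - n)! : ℤ) - 1 :=
    Pool.Agent.Lib.MP_de5eaa_nt.Near.wq_spec hp hn hnp
  refine ⟨h1, ?_⟩
  have h2 : ((-1 : ℤ) ^ n) * (-1) ^ n = 1 := by
    rw [← mul_pow]
    norm_num
  have h3 : ((n - 1)! : ℤ) * ((p - n)! : ℤ) - (-1) ^ n = (-1) ^ n * ((p : ℤ) * wilsonQuotient n p) := by
    rw [h1]
    linear_combination (-(((n - 1)! : ℤ) * ((p - n)! : ℤ))) * h2
  have h4 : (p : ℤ) ≠ 0 := by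
    have := hp.pos
    omega
  rw [h3]
  constructor
  · rintro ⟨c, hc⟩
    exact ⟨(-1) ^ n * c, by rw [hc]; ring⟩
  · intro h5
    have h6 : (p : ℤ) ^ 2 ∣ (p : ℤ) * wilsonQuotient n p := by
      have h7 := Dvd.dvd.mul_left h5 ((-1) ^ n)
      have h8 : (-1 : ℤ) ^ n * ((-1) ^ n * ((p : ℤ) * wilsonQuotient n p)) = (p : ℤ) * wilsonQuotient n p := by
        rw [← mul_assoc, h2, one_mul]
      rwa [h8] at h7
    rw [sq] at h6
    exact (mul_dvd_mul_iff_left h4).1 h6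

open Pool.Agent.Lib.MP_de5eaa_nt.Near Classical in
theorem inArc_eq (A : Finset ℕ) (p : ℕ) (θ ℓ : ℝ) :
    inArc (A : Set ℕ) p θ ℓ = (A.filter fun n => ∃ a : ℤ, θ ≤ yy p n - a ∧ yy p n - a ≤ θ + ℓ).card := by
  unfold inArc
  refine Nat.subtype_card _ fun n => ?_
  rw [Finset.mem_filter, Finset.mem_coe]
  exact Iff.rfl

/-- **Theorem.** For every `r` there is a `C` such that for all `x`, `M`, `L`, `N ≥ 1`, for EVERY nonempty set `A` of
orders `n` with `M < n ≤ M + L` and ANY real functions `Y_1, ..., Y_r` on the orders: for all the primes `p ≤ x` with at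
most `(C N^(r+2) (1 + log N)^3 (1 + L log (2 + (M + L) / log x) / log x) / |A|) π(x)` exceptions, for all real
`t_1, ..., t_r` every arc of every length `ℓ` contains `ℓ |U|` of the points `wilsonQuotient n p / p`, `n ∈ U`, with an
error of at most `|A| / N`; here `U` is the set of the `n ∈ A` with `Y_i(n) ≤ t_i` for all `i`. -/
theorem result (r : ℕ) : ∃ C : ℝ, 0 < C ∧ ∀ N M L x : ℕ, 1 ≤ N → ∀ A : Set ℕ, A.Nonempty →
    (∀ n ∈ A, M < n ∧ n ≤ M + L) → ∀ Y : Fin r → ℕ → ℝ,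
    (Nat.card {p : ℕ // p.Prime ∧ p ≤ x ∧ ∃ (t : Fin r → ℝ) (θ ℓ : ℝ), 0 ≤ ℓ ∧ ℓ ≤ 1 ∧
      (A.ncard : ℝ) / N < |(inArc (cut A Y t) p θ ℓ : ℝ) - ℓ * (cut A Y t).ncard|} : ℝ) ≤
      C * (N : ℝ) ^ (r + 2) * (1 + Real.log N) ^ 3 *
        (1 + L * (Real.log (2 + ((M : ℝ) + L) / Real.log x) / Real.log x)) / A.ncard *
          (Nat.card {p : ℕ // p.Prime ∧ p ≤ x}) := by
  classical
  obtain ⟨C, hC, h⟩ := Pool.Agent.Lib.MP_de5eaa_nt.Near.primes_data r
  refine ⟨C, hC, fun N M L x hN A hAne hA Y => ?_⟩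
  have hAfin : A.Finite := (Finset.Ioc M (M + L)).finite_toSet.subset fun n hn => by
    rw [Finset.mem_coe, Finset.mem_Ioc]
    exact hA n hn
  obtain ⟨A', rfl⟩ : ∃ A' : Finset ℕ, A = (A' : Set ℕ) := ⟨hAfin.toFinset, (Set.Finite.coe_toFinset hAfin).symm⟩
  have hAI : A' ⊆ Finset.Ioc M (M + L) := fun n hn => Finset.mem_Ioc.2 (hA n (Finset.mem_coe.2 hn))
  have hAne' : A'.Nonempty := Finset.coe_nonempty.1 hAne
  have h2 := h x N hN M L A' hAI hAne' Y
  have hcut : ∀ t : Fin r → ℝ, cut (A' : Set ℕ) Y t = ((A'.filter fun n => ∀ i, Y i n ≤ t i : Finset ℕ) : Set ℕ) := by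
    intro t
    ext n
    rw [Finset.mem_coe, Finset.mem_filter]
    exact Iff.rfl
  have e1 : Nat.card {p : ℕ // p.Prime ∧ p ≤ x} = Pool.Agent.Lib.MP_de5eaa_nt.Near.ppi x := by
    unfold Pool.Agent.Lib.MP_de5eaa_nt.Near.ppi
    refine Nat.subtype_card _ fun p => ?_
    rw [Finset.mem_filter, Finset.mem_range, Nat.lt_succ_iff]
    tauto
  rw [e1, Set.ncard_coe_finset]
  refine le_trans (le_of_eq ?_) h2
  congr 1
  refine Nat.subtype_card _ fun p => ?_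
  unfold Pool.Agent.Lib.MP_de5eaa_nt.Near.pr
  rw [Finset.mem_filter, Finset.mem_filter, Finset.mem_range, Nat.lt_succ_iff, and_comm (a := p ≤ x), and_assoc]
  simp only [hcut, inArc_eq, Set.ncard_coe_finset]

end Pool.Agent.Results.MP_de5eaa_nt.Equidistribution
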