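import Pool.Agent.Lib.MP_de5eaa_nt.Poi.V2
import Pool.Agent.Lib.MP_de5eaa_nt.Poi.N1c

/-!
# Poisson statistics of the Wilson quotients of one prime

`wilsonQuotient n p` is `((-1)^n (n-1)! (p-n)! - 1) / p`; for a prime `p` and `1 ≤ n ≤ p` it is an
integer, and it is divisible by `p` exactly if `p` is a Wilson prime of order `n`.
-/

set_option autoImplicit false

namespace Pool.Agent.Results.MP_de5eaa_nt.PoissonStatistics

open Nat

/-- The Wilson quotient of order `n` of the prime `p` (an exact quotient for `1 ≤ n ≤ p`). -/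
def wilsonQuotient (n p : ℕ) : ℤ := ((-1) ^ n * ((n - 1)! : ℤ) * ((p - n)! : ℤ) - 1) / (p : ℤ)

/-- The quotient is exact, and it is divisible by `p` exactly if `p` is a Wilson prime of order `n`. -/
theorem wilsonQuotient_spec {n p : ℕ} (hp : p.Prime) (hn : 1 ≤ n) (hnp : n ≤ p) :
    (p : ℤ) * wilsonQuotient n p = (-1) ^ n * ((n - 1)! : ℤ) * ((p - n)! : ℤ) - 1 ∧
    ((p : ℤ) ∣ wilsonQuotient n p ↔ (p : ℤ) ^ 2 ∣ ((n - 1)! : ℤ) * ((p - n)! : ℤ) - (-1) ^ n) := by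
  have h1 : (p : ℤ) * wilsonQuotient n p = (-1) ^ n * ((n - 1)! : ℤ) * ((p - n)! : ℤ) - 1 :=
    Pool.Agent.Lib.MP_de5eaa_nt.Near.wq_spec hp hn hnp
  refine ⟨h1, ?_⟩
  have h2 : ((-1 : ℤ) ^ n) * (-1) ^ n = 1 := by
    rw [← mul_pow]
    norm_num
  have h3 : ((n - 1)! : ℤ) * ((p - n)! : ℤ) - (-1) ^ n = (-1) ^ n * ((p : ℤ) * wilsonQuotient n p) := by
    rw [h1]
    linear_combination (-(((n - 1)! : ℤ) * ((p - n)! : ℤ))) * h2
  have h4 : (p : ℤ) ≠ 0 := by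
    have := hp.pos
    omega
  rw [h3]
  constructor
  · rintro ⟨c, hc⟩
    exact ⟨(-1) ^ n * c, by rw [hc]; ring⟩
  · intro h5
    have h6 : (p : ℤ) ^ 2 ∣ (p : ℤ) * wilsonQuotient n p := by
      have h7 := Dvd.dvd.mul_left h5 ((-1) ^ n)
      have h8 : (-1 : ℤ) ^ n * ((-1) ^ n * ((p : ℤ) * wilsonQuotient n p)) = (p : ℤ) * wilsonQuotient n p := by
        rw [← mul_assoc, h2, one_mul]
      rwa [h8] at h7
    rw [sq] at h6
    exact (mul_dvd_mul_iff_left h4).1 h6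

/-- The number of the orders `n ∈ D` for which `wilsonQuotient n p / p` is, modulo one, in `t + [a, b] / L`. -/
noncomputable def hits (a b : ℝ) (L p : ℕ) (D : Finset ℕ) (t : ℝ) : ℕ :=
  Nat.card {n : ℕ // n ∈ D ∧ ∃ z : ℤ, a ≤ (L : ℝ) * ((wilsonQuotient n p : ℝ) / p - t - z) ∧
    (L : ℝ) * ((wilsonQuotient n p : ℝ) / p - t - z) ≤ b}

/-- The measure of the set of the `t` in `[α, β]` for which, for every `i < k`, there are exactly `r i` such orders for the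
interval `[c (2 i), c (2 i + 1)]`. -/
noncomputable def meas (k : ℕ) (c : ℕ → ℝ) (L p : ℕ) (D : Finset ℕ) (r : Fin k → ℕ) (α β : ℝ) : ℝ :=
  (MeasureTheory.volume {t : ℝ | (α ≤ t ∧ t ≤ β) ∧ ∀ i : Fin k, hits (c (2 * i)) (c (2 * i + 1)) L p D t = r i}).toReal

/-- The probability of the value `r` for the Poisson distribution with expectation `m`. -/
noncomputable def poisson (m : ℝ) (r : ℕ) : ℝ := Real.exp (-m) * m ^ r / (r ! : ℝ)

open Pool.Agent.Lib.MP_de5eaa_nt.Poi in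
theorem hits_eq (a b : ℝ) (L p : ℕ) (D : Finset ℕ) (t : ℝ) : hits a b L p D t =
    cnt (Set.Icc a b) L D (fun n => (Pool.Agent.Lib.MP_de5eaa_nt.Near.wq n p : ℝ) / p) t := by
  classical
  unfold hits cnt
  refine (Nat.subtype_card _ fun n => ?_)
  rw [Finset.mem_filter]
  rfl

open Pool.Agent.Lib.MP_de5eaa_nt.Poi in
theorem meas_eq (k : ℕ) (c : ℕ → ℝ) (L p : ℕ) (D : Finset ℕ) (r : Fin k → ℕ) (α β : ℝ) : meas k c L p D r α β =
    jvl k c L D (fun n => (Pool.Agent.Lib.MP_de5eaa_nt.Near.wq n p : ℝ) / p) r α β := by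
  unfold meas jvl
  congr 1
  apply MeasureTheory.measure_congr
  have h1 : (Set.Icc α β : Set ℝ) =ᵐ[MeasureTheory.volume] Set.Ioc α β :=
    MeasureTheory.Ioc_ae_eq_Icc.symm
  have h2 : {t : ℝ | (α ≤ t ∧ t ≤ β) ∧ ∀ i : Fin k, hits (c (2 * i)) (c (2 * i + 1)) L p D t = r i} =
      {t | ∀ i : Fin k, cnt (Set.Icc (c (2 * i)) (c (2 * i + 1))) L D
        (fun n => (Pool.Agent.Lib.MP_de5eaa_nt.Near.wq n p : ℝ) / p) t = r i} ∩ Set.Icc α β := by
    ext t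
    simp only [Set.mem_ofPred_eq, Set.mem_inter_iff, Set.mem_Icc, hits_eq]
    exact and_comm
  rw [h2]
  exact MeasureTheory.ae_eq_set_inter (Filter.EventuallyEq.refl _ _) h1

/-- **Theorem.** Let `k` be a natural number, `B` real, `δ, ε > 0`. There is an `L₀` such that for all `L`, `M` and `x` with
`L₀ ≤ L` and `M + L ≤ (1 - δ) log x` or `L log (M + L) ≤ (1 - δ) log x`, and for every set `D` of orders `n` of the window
`M < n ≤ M + L`: for all the primes `p ≤ x` with at most `ε π(x)` exceptions, the following holds for all the points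
`c 0 ≤ c 1 ≤ ... ≤ c (2 k - 1)` of `[-B, B]` and all the arcs `[α, β]` of the circle `ℝ / ℤ` at once (`α ≤ β ≤ α + 1`): the
numbers of the orders `n ∈ D` with `wilsonQuotient n p / p` in `t + [c (2 i), c (2 i + 1)] / L` modulo one, `i < k`, are, for `t`
in `[α, β]`, in total variation within `ε` (of the total mass `β - α`) of independent Poisson variables with the
expectations `(c (2 i + 1) - c (2 i)) |D| / L`. -/
theorem result (k : ℕ) (B : ℝ) {δ ε : ℝ} (hδ : 0 < δ) (hε : 0 < ε) : ∃ L₀ : ℕ, ∀ L M x : ℕ, L₀ ≤ L →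
    (((M + L : ℕ) : ℝ) ≤ (1 - δ) * Real.log x ∨ (L : ℝ) * Real.log ((M + L : ℕ) : ℝ) ≤ (1 - δ) * Real.log x) →
    ∀ D : Finset ℕ, (∀ n ∈ D, M < n ∧ n ≤ M + L) →
      (Nat.card {p : ℕ // p.Prime ∧ p ≤ x ∧ ¬ ∀ c : ℕ → ℝ, Monotone c → (∀ i, |c i| ≤ B) →
        ∀ α β : ℝ, α ≤ β → β ≤ α + 1 → ∀ F : Finset (Fin k → ℕ),
          ∑ r ∈ F, |meas k c L p D r α β -
            (β - α) * ∏ i : Fin k, poisson ((c (2 * i + 1) - c (2 * i)) * D.card / L) (r i)| ≤ ε} : ℝ) ≤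
      ε * (Nat.card {p : ℕ // p.Prime ∧ p ≤ x} : ℝ) := by
  classical
  obtain ⟨L0, h0⟩ := Pool.Agent.Lib.MP_de5eaa_nt.Poi.joint_net k (le_max_right B 0) hδ hε
  refine ⟨L0, fun L M x hL hLx D hD => ?_⟩
  have h2 := h0 L M x hL hLx D (fun n hn => Finset.mem_Ioc.2 (hD n hn))
  have e1 : Nat.card {p : ℕ // p.Prime ∧ p ≤ x} = Pool.Agent.Lib.MP_de5eaa_nt.Near.ppi x := by
    unfold Pool.Agent.Lib.MP_de5eaa_nt.Near.ppi
    refine Nat.subtype_card _ fun p => ?_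
    rw [Finset.mem_filter, Finset.mem_range, Nat.lt_succ_iff, and_comm]
  rw [e1]
  refine le_trans ?_ h2
  have h3 : {p : ℕ | p.Prime ∧ p ≤ x ∧ ¬ ∀ c : ℕ → ℝ, Monotone c → (∀ i, |c i| ≤ B) →
      ∀ α β : ℝ, α ≤ β → β ≤ α + 1 → ∀ F : Finset (Fin k → ℕ),
        ∑ r ∈ F, |meas k c L p D r α β -
          (β - α) * ∏ i : Fin k, poisson ((c (2 * i + 1) - c (2 * i)) * D.card / L) (r i)| ≤ ε} ⊆
      (((Finset.range (x + 1)).filter fun p => p.Prime ∧ ∃ c : ℕ → ℝ, Monotone c ∧ (∀ i, |c i| ≤ max B 0) ∧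
        ∃ α β : ℝ, α ≤ β ∧ β ≤ α + 1 ∧ ∃ F : Finset (Fin k → ℕ), ε < ∑ r ∈ F,
        |Pool.Agent.Lib.MP_de5eaa_nt.Poi.jvl k c L D
        (fun n => (Pool.Agent.Lib.MP_de5eaa_nt.Near.wq n p : ℝ) / p) r α β -
        (β - α) * ∏ i : Fin k, Pool.Agent.Lib.MP_de5eaa_nt.Poi.poi
          ((c (2 * i + 1) - c (2 * i)) * D.card / L) (r i)| : Finset ℕ) : Set ℕ) := by
    rintro p ⟨hp, hpx, hcon⟩
    push Not at hcon
    obtain ⟨c, hc, hcB, α, β, h1, h2, F, hF⟩ := hcon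
    rw [Finset.mem_coe, Finset.mem_filter, Finset.mem_range, Nat.lt_succ_iff]
    refine ⟨hpx, hp, c, hc, fun i => (hcB i).trans (le_max_left B 0), α, β, h1, h2, F, ?_⟩
    refine lt_of_lt_of_eq hF (Finset.sum_congr rfl fun r _ => ?_)
    rw [meas_eq]
    rfl
  have h4 := Set.ncard_le_ncard h3 (Finset.finite_toSet _)
  rw [Set.ncard_coe_finset] at h4
  exact_mod_cast h4

end Pool.Agent.Results.MP_de5eaa_nt.PoissonStatistics
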